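import Mathlib
import Pool.Agent.MP_c0c29f_mp.H97.Lift

namespace Pool.Agent.Results.MP_c0c29f_mp.LinearRange

open Pool.Agent.MP_c0c29f_mp.H97

theorem result :
    ∀ N M : ℕ, 1000 * M ≤ N →
      {S : Finset ℂ | S.card = M ∧ ∀ x ∈ S,
          (x + Complex.I / 2) ^ N * ∏ y ∈ S.erase x, (x - y - Complex.I) =
          (x - Complex.I / 2) ^ N * ∏ y ∈ S.erase x, (x - y + Complex.I)}.Finite ∧
      ((Set.ncard {S : Finset ℂ | S.card = M ∧ ∀ x ∈ S,
          (x + Complex.I / 2) ^ N * ∏ y ∈ S.erase x, (x - y - Complex.I) =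
          (x - Complex.I / 2) ^ N * ∏ y ∈ S.erase x, (x - y + Complex.I)} : ℤ)
        - (Set.ncard {S : Finset ℂ | S.card = M ∧ (∀ x ∈ S,
          (x + Complex.I / 2) ^ N * ∏ y ∈ S.erase x, (x - y - Complex.I) =
          (x - Complex.I / 2) ^ N * ∏ y ∈ S.erase x, (x - y + Complex.I)) ∧
          Complex.I / 2 ∈ S ∧ -(Complex.I / 2) ∈ S} : ℤ)
        + (Set.ncard {S : Finset ℂ | S.card = M ∧ (∀ x ∈ S,
          (x + Complex.I / 2) ^ N * ∏ y ∈ S.erase x, (x - y - Complex.I) =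
          (x - Complex.I / 2) ^ N * ∏ y ∈ S.erase x, (x - y + Complex.I)) ∧
          Complex.I / 2 ∈ S ∧ -(Complex.I / 2) ∈ S ∧
          (-∏ y ∈ (S.erase (Complex.I / 2)).erase (-(Complex.I / 2)),
              ((y + Complex.I / 2) / (y - Complex.I / 2))) ^ N = 1} : ℤ)
        = (N.choose M : ℤ) - (if M = 0 then (0 : ℤ) else (N.choose (M - 1) : ℤ))) := by
  intro N M h
  have hN : 2 * M ≤ N := by omega
  exact ⟨(count_l hN).1, (count_l hN).2.trans (count_eq hN fun Q hQ => hQ.nodup_lin h)⟩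

end Pool.Agent.Results.MP_c0c29f_mp.LinearRange
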